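import Pool.Agent.H61.NC.Second

/-!
# Lipschitz bounds in the density, and a continuity (bootstrap) argument
-/

open MeasureTheory ProbabilityTheory unitInterval

namespace Pool.Agent.H61.NB

open Pool.Agent.H89.Perc Pool.Agent.H61.NC

variable {s : Finset Edge} {A : Set Config}

private lemma lip_mem {q₀ q₁ : I} {x : ℝ} (hx : x ∈ Set.Icc (q₀ : ℝ) q₁) :
    ∃ q : I, (q : ℝ) = x ∧ q₀ ≤ q ∧ q ≤ q₁ :=
  ⟨⟨x, q₀.2.1.trans hx.1, hx.2.trans q₁.2.2⟩, rfl, hx.1, hx.2⟩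

/-- The probability of a local event as a continuous function on the line. -/
theorem continuousAt_PrR (hA : LocalOn s A) (q : I) : ContinuousAt (PrR s A) (q : ℝ) :=
  (hasDerivAt_PrR hA q).continuousAt

theorem Pr_sub_le (hA : LocalOn s A) {q₀ q₁ : I} (h : q₀ ≤ q₁) {M : ℝ}
    (hM : ∀ q, q₀ ≤ q → q ≤ q₁ → ∑ e ∈ s, pivot q A e ≤ M) :
    Pr q₁ A - Pr q₀ A ≤ ((q₁ : ℝ) - q₀) * M := by
  have h01 : (q₀ : ℝ) ≤ q₁ := h
  rw [Pr_eq_PrR hA, Pr_eq_PrR hA]
  have h2 := Convex.image_sub_le_mul_sub_of_deriv_le (convex_Icc (q₀ : ℝ) q₁)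
      (f := PrR s A) ?_ (C := M) ?_ ?_ (q₀ : ℝ) ⟨le_rfl, h01⟩
      (q₁ : ℝ) ⟨h01, le_rfl⟩ h01
  · linarith
  · intro x hx
    obtain ⟨q, rfl, -, -⟩ := lip_mem hx
    exact (continuousAt_PrR hA q).continuousWithinAt
  · intro x hx
    rw [interior_Icc] at hx
    obtain ⟨q, rfl, -, -⟩ := lip_mem ⟨hx.1.le, hx.2.le⟩
    exact (hasDerivAt_PrR hA q).differentiableAt.differentiableWithinAt
  · intro x hx
    rw [interior_Icc] at hx
    obtain ⟨q, rfl, hq0, hq1⟩ := lip_mem ⟨hx.1.le, hx.2.le⟩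
    rw [(hasDerivAt_PrR hA q).deriv]
    exact hM q hq0 hq1

theorem abs_pivot_sub_le (hA : LocalOn s A) (iA : Incr A) (e : Edge) {q₀ q₁ : I} (h : q₀ ≤ q₁)
    {M : ℝ} (hM : ∀ q, q₀ ≤ q → q ≤ q₁ → ∑ f ∈ s.erase e, Pr q (Joint A e f) ≤ M) :
    |pivot q₁ A e - pivot q₀ A e| ≤ ((q₁ : ℝ) - q₀) * M := by
  have h01 : (q₀ : ℝ) ≤ q₁ := h
  set G : ℝ → ℝ := fun x => PrR s (upd A e true) x - PrR s (upd A e false) x with hG
  have hGe : ∀ q : I, pivot q A e = G q := by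
    intro q
    simp only [hG]
    rw [← Pr_eq_PrR (localOn_upd hA e true), ← Pr_eq_PrR (localOn_upd hA e false)]
    rfl
  have hd : ∀ q : I, HasDerivAt G
      (∑ f ∈ s, (pivot q (upd A e true) f - pivot q (upd A e false) f)) (q : ℝ) := by
    intro q
    rw [Finset.sum_sub_distrib]
    exact (hasDerivAt_PrR (localOn_upd hA e true) q).sub
      (hasDerivAt_PrR (localOn_upd hA e false) q)
  have hb : ∀ q : I, q₀ ≤ q → q ≤ q₁ →
      |∑ f ∈ s, (pivot q (upd A e true) f - pivot q (upd A e false) f)| ≤ M := by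
    intro q hq0 hq1
    have h1 : ∑ f ∈ s, (pivot q (upd A e true) f - pivot q (upd A e false) f) =
        ∑ f ∈ s.erase e, (pivot q (upd A e true) f - pivot q (upd A e false) f) := by
      by_cases he : e ∈ s
      · rw [← Finset.add_sum_erase s _ he, pivot_upd_self, pivot_upd_self, sub_zero, zero_add]
      · rw [Finset.erase_eq_of_notMem he]
    rw [h1]
    calc |∑ f ∈ s.erase e, (pivot q (upd A e true) f - pivot q (upd A e false) f)|
        ≤ ∑ f ∈ s.erase e, |pivot q (upd A e true) f - pivot q (upd A e false) f| :=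
          Finset.abs_sum_le_sum_abs _ _
      _ ≤ ∑ f ∈ s.erase e, Pr q (Joint A e f) :=
          Finset.sum_le_sum fun f hf => abs_pivot2_le hA iA (Finset.ne_of_mem_erase hf).symm q
      _ ≤ M := hM q hq0 hq1
  rw [hGe, hGe]
  have h2 := Convex.norm_image_sub_le_of_norm_hasDerivWithin_le (f := G)
    (f' := fun x => if hx : x ∈ I then
      ∑ f ∈ s, (pivot ⟨x, hx⟩ (upd A e true) f - pivot ⟨x, hx⟩ (upd A e false) f) else 0)
    (C := M) (s := Set.Icc (q₀ : ℝ) q₁) (x := (q₀ : ℝ)) (y := (q₁ : ℝ)) ?_ ?_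
    (convex_Icc _ _) ⟨le_rfl, h01⟩ ⟨h01, le_rfl⟩
  · rw [Real.norm_eq_abs, Real.norm_eq_abs, abs_of_nonneg (sub_nonneg.2 h01)] at h2
    linarith
  · intro x hx
    obtain ⟨q, rfl, -, -⟩ := lip_mem hx
    have := hd q
    simp only [Subtype.coe_prop, dite_true, Subtype.coe_eta]
    exact this.hasDerivWithinAt
  · intro x hx
    obtain ⟨q, rfl, hq0, hq1⟩ := lip_mem hx
    simp only [Subtype.coe_prop, dite_true, Subtype.coe_eta, Real.norm_eq_abs]
    exact hb q hq0 hq1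

/-- Bootstrap: a continuous function which is at most `1/2` as long as it is at most `1` stays at
most `1/2`. -/
theorem bootstrap {G : ℝ → ℝ} {b : ℝ} (hb : 0 ≤ b) (hG : ContinuousOn G (Set.Icc 0 b))
    (h0 : G 0 ≤ 1 / 2)
    (h : ∀ t, 0 ≤ t → t ≤ b → (∀ u, 0 ≤ u → u ≤ t → G u ≤ 1) → G t ≤ 1 / 2) :
    ∀ t, 0 ≤ t → t ≤ b → G t ≤ 1 / 2 := by
  by_contra hne
  push Not at hne
  obtain ⟨t₁, ht0, htb, ht⟩ := hne
  -- the first time at which `G ≥ 3/4`... use compactness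
  set S : Set ℝ := {t | t ∈ Set.Icc 0 b ∧ 1 / 2 < G t} with hS
  have hSne : S.Nonempty := ⟨t₁, ⟨ht0, htb⟩, ht⟩
  have hSb : BddBelow S := ⟨0, fun x hx => hx.1.1⟩
  set τ := sInf S with hτ
  have hτ0 : 0 ≤ τ := le_csInf hSne fun x hx => hx.1.1
  have hτb : τ ≤ b := (csInf_le hSb ⟨⟨ht0, htb⟩, ht⟩).trans htb
  have hlt : ∀ u, 0 ≤ u → u < τ → G u ≤ 1 / 2 := by
    intro u hu0 hu
    by_contra hc
    push Not at hc
    have : τ ≤ u := csInf_le hSb ⟨⟨hu0, hu.le.trans hτb⟩, hc⟩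
    linarith
  have hτG : G τ ≤ 1 / 2 := by
    rcases hτ0.eq_or_lt with h1 | h1
    · rw [← h1]; exact h0
    · by_contra hc
      push Not at hc
      have hcw : ContinuousWithinAt G (Set.Icc 0 b) τ := hG τ ⟨hτ0, hτb⟩
      have hev : ∀ᶠ u in nhdsWithin τ (Set.Icc 0 b), 1 / 2 < G u :=
        hcw.eventually (lt_mem_nhds hc)
      rw [eventually_nhdsWithin_iff] at hev
      obtain ⟨ε, hε, hball⟩ := Metric.eventually_nhds_iff.1 hev
      set u := max 0 (τ - ε / 2) with hu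
      have hu0 : 0 ≤ u := le_max_left _ _
      have hut : u < τ := max_lt h1 (by linarith)
      have hd : dist u τ < ε := by
        rw [Real.dist_eq, abs_lt]
        have : τ - ε / 2 ≤ u := le_max_right _ _
        constructor <;> linarith
      have := hball hd ⟨hu0, hut.le.trans hτb⟩
      have := hlt u hu0 hut
      linarith
  -- `G` is below `1` slightly to the right of `τ`
  have hcw : ContinuousWithinAt G (Set.Icc 0 b) τ := hG τ ⟨hτ0, hτb⟩
  have hev : ∀ᶠ u in nhdsWithin τ (Set.Icc 0 b), G u < 1 :=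
    hcw.eventually (gt_mem_nhds (by linarith))
  rw [eventually_nhdsWithin_iff] at hev
  obtain ⟨ε, hε, hball⟩ := Metric.eventually_nhds_iff.1 hev
  obtain ⟨v, hvS, hv⟩ := exists_lt_of_csInf_lt hSne (show sInf S < τ + ε by linarith)
  have hvτ : τ ≤ v := csInf_le hSb hvS
  have hv1 : G v ≤ 1 / 2 := by
    refine h v hvS.1.1 hvS.1.2 fun u hu0 hu => ?_
    rcases lt_or_ge u τ with h1 | h1
    · have := hlt u hu0 h1
      linarith
    · refine (hball (y := u) ?_ ⟨hu0, hu.trans hvS.1.2⟩).le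
      rw [Real.dist_eq, abs_lt]
      constructor <;> linarith
  linarith [hvS.2]

end Pool.Agent.H61.NB
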